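import Pool.Agent.Helper73.Dil.Pure

set_option autoImplicit false

open Topology Set Filter MeasureTheory Metric

namespace Pool.Agent.Helper47.Dil

open Pool.Agent.Helper73.Dil

/-- upper elementary matrix -/
noncomputable def up (t : ℝ) : G := ⟨!![1, t; 0, 1], by rw [Matrix.det_fin_two_of]; ring⟩

/-- lower elementary matrix -/
noncomputable def lo (t : ℝ) : G := ⟨!![1, 0; t, 1], by rw [Matrix.det_fin_two_of]; ring⟩

/-- `diag(2,1/2)` -/
noncomputable def dg2 : G := ⟨!![2, 0; 0, 1 / 2], by rw [Matrix.det_fin_two_of]; norm_num⟩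

lemma up_add (s t : ℝ) : up (s + t) = up s * up t := by
  apply Subtype.ext
  ext i j
  fin_cases i <;> fin_cases j <;> simp [up, Matrix.SpecialLinearGroup.coe_mul, Matrix.mul_apply,
    Fin.sum_univ_two, add_comm]

lemma lo_add (s t : ℝ) : lo (s + t) = lo s * lo t := by
  apply Subtype.ext
  ext i j
  fin_cases i <;> fin_cases j <;> simp [lo, Matrix.SpecialLinearGroup.coe_mul, Matrix.mul_apply,
    Fin.sum_univ_two, add_comm]

lemma dg_up (t : ℝ) : dg2 * up t = up (4 * t) * dg2 := by
  apply Subtype.ext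
  ext i j
  fin_cases i <;> fin_cases j <;> simp [up, dg2, Matrix.SpecialLinearGroup.coe_mul,
    Matrix.mul_apply, Fin.sum_univ_two]
  ring

lemma dg_lo (t : ℝ) : lo t * dg2 = dg2 * lo (4 * t) := by
  apply Subtype.ext
  ext i j
  fin_cases i <;> fin_cases j <;> simp [lo, dg2, Matrix.SpecialLinearGroup.coe_mul,
    Matrix.mul_apply, Fin.sum_univ_two]
  ring

lemma decomp (g : G) (h : g.1 1 0 ≠ 0) :
    g = up ((g.1 0 0 - 1) / g.1 1 0) * lo (g.1 1 0) * up ((g.1 1 1 - 1) / g.1 1 0) := by
  have hd := g.2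
  rw [Matrix.det_fin_two] at hd
  apply Subtype.ext
  ext i j
  fin_cases i <;> fin_cases j
  · simp [up, lo, Matrix.SpecialLinearGroup.coe_mul, Matrix.mul_apply, Fin.sum_univ_two]
    field_simp
    ring
  · simp [up, lo, Matrix.SpecialLinearGroup.coe_mul, Matrix.mul_apply, Fin.sum_univ_two]
    field_simp
    linarith
  · simp [up, lo, Matrix.SpecialLinearGroup.coe_mul, Matrix.mul_apply, Fin.sum_univ_two]
  · simp [up, lo, Matrix.SpecialLinearGroup.coe_mul, Matrix.mul_apply, Fin.sum_univ_two]
    field_simp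
    ring

theorem st_PERF : ST_PERF := by
  intro f hf
  have hup : ∀ t, f (up t) = 0 := by
    intro t
    have h1 : f (up (4 * t)) = 4 * f (up t) := by
      have : 4 * t = (t + t) + (t + t) := by ring
      rw [this, up_add, up_add, hf, hf]; ring
    have h2 := congrArg f (dg_up t)
    rw [hf, hf, h1] at h2
    linarith
  have hlo : ∀ t, f (lo t) = 0 := by
    intro t
    have h1 : f (lo (4 * t)) = 4 * f (lo t) := by
      have : 4 * t = (t + t) + (t + t) := by ring
      rw [this, lo_add, lo_add, hf, hf]; ring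
    have h2 := congrArg f (dg_lo t)
    rw [hf, hf, h1] at h2
    linarith
  have key : ∀ g : G, g.1 1 0 ≠ 0 → f g = 0 := by
    intro g hg
    rw [decomp g hg, hf, hf, hup, hup, hlo]; ring
  intro g
  by_cases hg : g.1 1 0 = 0
  · have hd := g.2
    rw [Matrix.det_fin_two, hg] at hd
    have h11 : g.1 1 1 ≠ 0 := by
      intro h; rw [h] at hd; norm_num at hd
    have h := key (g * lo 1) (by
      have : (g * lo 1).1 1 0 = g.1 1 0 + g.1 1 1 := by
        simp [lo, Matrix.SpecialLinearGroup.coe_mul, Matrix.mul_apply, Fin.sum_univ_two]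
      rw [this, hg, zero_add]; exact h11)
    rw [hf, hlo] at h
    linarith
  · exact key g hg

end Pool.Agent.Helper47.Dil
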