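import Pool.Agent.Helper73.Dil.Pure

set_option autoImplicit false

open Topology Set Filter MeasureTheory Metric

namespace Pool.Agent.Helper47.Dil

open Pool.Agent.Helper73.Dil

lemma conj_entries (g M : G) :
    (g * M * g⁻¹).1 0 0 - (g * M * g⁻¹).1 1 1 =
      (g.1 0 0 * g.1 1 1 + g.1 0 1 * g.1 1 0) * (M.1 0 0 - M.1 1 1)
        - 2 * g.1 0 0 * g.1 1 0 * M.1 0 1 + 2 * g.1 0 1 * g.1 1 1 * M.1 1 0 ∧
    (g * M * g⁻¹).1 0 1 = - g.1 0 0 * g.1 0 1 * (M.1 0 0 - M.1 1 1)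
        + g.1 0 0 ^ 2 * M.1 0 1 - g.1 0 1 ^ 2 * M.1 1 0 ∧
    (g * M * g⁻¹).1 1 0 = g.1 1 0 * g.1 1 1 * (M.1 0 0 - M.1 1 1)
        - g.1 1 0 ^ 2 * M.1 0 1 + g.1 1 1 ^ 2 * M.1 1 0 := by
  refine ⟨?_, ?_, ?_⟩ <;>
  · simp only [Matrix.SpecialLinearGroup.coe_mul, Matrix.SpecialLinearGroup.coe_inv,
      Matrix.adjugate_fin_two, Matrix.mul_apply, Fin.sum_univ_two, Matrix.of_apply,
      Matrix.cons_val', Matrix.cons_val_zero, Matrix.cons_val_one, Matrix.cons_val_fin_one,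
      Matrix.empty_val']
    ring

lemma scalar_of (M : G) (h1 : M.1 0 0 - M.1 1 1 = 0) (h2 : M.1 0 1 = 0) (h3 : M.1 1 0 = 0) :
    M = 1 ∨ M = -1 := by
  have hd := M.2
  rw [Matrix.det_fin_two] at hd
  have h4 : M.1 1 1 = M.1 0 0 := by linarith
  have h5 : (M.1 0 0 - 1) * (M.1 0 0 + 1) = 0 := by
    rw [h2, h4] at hd; linarith [hd]
  rcases mul_eq_zero.mp h5 with h | h
  · left
    apply Subtype.ext
    have h6 : M.1 0 0 = 1 := by linarith
    ext i j
    fin_cases i <;> fin_cases j <;> simp [h2, h3, h4, h6]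
  · right
    apply Subtype.ext
    have h6 : M.1 0 0 = -1 := by linarith
    ext i j
    fin_cases i <;> fin_cases j <;> simp [h2, h3, h4, h6]

theorem st_RATIO : ST_RATIO := by
  intro α β hcomm ha1 ha2 hb1 hb2
  have hc : α.1 * β.1 = β.1 * α.1 := by
    have := congrArg Subtype.val hcomm
    simpa [Matrix.SpecialLinearGroup.coe_mul] using this
  have e00 := congrFun (congrFun hc 0) 0
  have e01 := congrFun (congrFun hc 0) 1
  have e10 := congrFun (congrFun hc 1) 0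
  simp only [Matrix.mul_apply, Fin.sum_univ_two] at e00 e01 e10
  set a := α.1 0 0 - α.1 1 1 with ha
  set b := α.1 0 1 with hb
  set c := α.1 1 0 with hc'
  set a' := β.1 0 0 - β.1 1 1 with ha'
  set b' := β.1 0 1 with hb'
  set c' := β.1 1 0 with hc''
  have k1 : b * c' = b' * c := by linarith
  have k2 : a * b' = a' * b := by rw [ha, ha']; linarith
  have k3 : a * c' = a' * c := by rw [ha, ha']; linarith
  have hpos : 0 < a ^ 2 + b ^ 2 + c ^ 2 := by
    by_contra hcon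
    have h1 : a = 0 := by nlinarith [sq_nonneg a, sq_nonneg b, sq_nonneg c]
    have h2 : b = 0 := by nlinarith [sq_nonneg a, sq_nonneg b, sq_nonneg c]
    have h3 : c = 0 := by nlinarith [sq_nonneg a, sq_nonneg b, sq_nonneg c]
    rcases scalar_of α h1 h2 h3 with h | h
    · exact ha1 h
    · exact ha2 h
  have hpos' : 0 < a' ^ 2 + b' ^ 2 + c' ^ 2 := by
    by_contra hcon
    have h1 : a' = 0 := by nlinarith [sq_nonneg a', sq_nonneg b', sq_nonneg c']
    have h2 : b' = 0 := by nlinarith [sq_nonneg a', sq_nonneg b', sq_nonneg c']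
    have h3 : c' = 0 := by nlinarith [sq_nonneg a', sq_nonneg b', sq_nonneg c']
    rcases scalar_of β h1 h2 h3 with h | h
    · exact hb1 h
    · exact hb2 h
  set l := (a * a' + b * b' + c * c') / (a ^ 2 + b ^ 2 + c ^ 2) with hl
  have hne : a ^ 2 + b ^ 2 + c ^ 2 ≠ 0 := hpos.ne'
  have l1 : a' = l * a := by
    rw [hl, div_mul_eq_mul_div, eq_div_iff hne]
    have : a' * (a ^ 2 + b ^ 2 + c ^ 2) = a' * a ^ 2 + (a' * b) * b + (a' * c) * c := by ring
    rw [this, ← k2, ← k3]; ring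
  have l2 : b' = l * b := by
    rw [hl, div_mul_eq_mul_div, eq_div_iff hne]
    have : b' * (a ^ 2 + b ^ 2 + c ^ 2) = (a * b') * a + b' * b ^ 2 + (b' * c) * c := by ring
    rw [this, k2, ← k1]; ring
  have l3 : c' = l * c := by
    rw [hl, div_mul_eq_mul_div, eq_div_iff hne]
    have : c' * (a ^ 2 + b ^ 2 + c ^ 2) = (a * c') * a + (b * c') * b + c' * c ^ 2 := by ring
    rw [this, k3, k1]; ring
  have hl0 : l ≠ 0 := by
    intro h
    rw [l1, l2, l3, h] at hpos'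
    simp at hpos'
  refine ⟨|l|, abs_pos.mpr hl0, fun g => ?_⟩
  obtain ⟨p1, p2, p3⟩ := conj_entries g α
  obtain ⟨q1, q2, q3⟩ := conj_entries g β
  rw [← ha, ← hb, ← hc'] at p1 p2 p3
  rw [← ha', ← hb', ← hc'', l1, l2, l3] at q1 q2 q3
  have r1 : (g * β * g⁻¹).1 0 0 - (g * β * g⁻¹).1 1 1 =
      l * ((g * α * g⁻¹).1 0 0 - (g * α * g⁻¹).1 1 1) := by rw [q1, p1]; ring
  have r2 : (g * β * g⁻¹).1 0 1 = l * (g * α * g⁻¹).1 0 1 := by rw [q2, p2]; ring
  have r3 : (g * β * g⁻¹).1 1 0 = l * (g * α * g⁻¹).1 1 0 := by rw [q3, p3]; ring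
  unfold tn
  rw [r1, r2, r3, ← Real.sqrt_sq_eq_abs, ← Real.sqrt_mul (sq_nonneg l)]
  congr 1
  ring

end Pool.Agent.Helper47.Dil
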